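import Mathlib
import Pool.Agent.W787.PEmain

set_option autoImplicit false

/-!
# MP_b4eea7_an: the lower critical exponent of a parabolic operator in one space dimension

The definitions (`InE`, `form`, `Elliptic`, `IsResolvent`, `LpBounded`, `pMinus`) are in
`Pool/Agent/W787/PEdef.lean`.
-/

namespace Pool.Agent.Results.MP_b4eea7_an.ParabolicExponent

open Pool.Agent.W787.PE

/-- There is a bounded measurable coefficient `a : ℝ² → ℂ` with `Re a ≥ ν > 0` whose resolvents
`(1 + λ² 𝓗)⁻¹` (which exist and are unique on `L²`) are not `L^p` bounded for any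
`p ∈ [1, 24/23)`; in particular `p_-(𝓗) ≥ 24/23 > 1`. -/
theorem result : ∃ a : Plane → ℂ, Elliptic a ∧
    (∀ lam : ℝ, 0 < lam → ∀ f : L2, ∃! u : L2, IsResolvent a lam f u) ∧
    (∀ p : ℝ, 1 ≤ p → p < 24/23 → ¬ LpBounded a p) ∧
    24/23 ≤ pMinus a :=
  ⟨bb, bb_elliptic, fun lam hl f => resolvent_exists bb bb_elliptic lam hl f, not_bounded,
    pMinus_ge⟩

end Pool.Agent.Results.MP_b4eea7_an.ParabolicExponent
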